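import Pool.Agent.N869.ZE.A.Asy
import Pool.Agent.N869.GK.Stm

/-!
# Project GK: the averages from the parts
-/

set_option autoImplicit false
set_option linter.unusedSectionVars false

open scoped Classical

namespace Pool.Agent.N869.GK.A

open Finset
open Pool.Agent.Y703.CX (sm la jj XX eL zz kk)
open Pool.Agent.Y703.CQ (nr sg)
open Pool.Agent.N916.GB (Po SA S_BIL)
open Pool.Agent.N869.QT.L (prs ext Lc Fam)
open Pool.Agent.N869.QT.G (sys exC pr Dep)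
open Pool.Agent.N869.ZE
open Pool.Agent.N869.ZE.A (PairK bilK)
open Pool.Agent.N869.GK

section main

variable {r : ℕ} {I Q V : Type} [Fintype I] [Fintype Q] [Nonempty Q] [Fintype V]

theorem okG {M : ℕ} {lb : ℕ → Gr r} {lv : ℕ → V} {tv : V → Gr r} {Bad : Set V}
    (hB : ∀ p, Po p → p ∣ M → lv p ∈ Bad) (htv : ∀ p, Po p → lb p = tv (lv p)) {E : I → Finset Q}
    {P : (Q × V → ℕ) → Prop} (hP : OkP E (AdG tv) Bad P) : OkG M lb E lv P := by
  refine ⟨fun p q hp hq h => by rw [htv p hp, htv q hq, h], ?_⟩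
  intro γ S hS hPS
  obtain ⟨h1, h2⟩ := hP _ hPS
  refine ⟨fun p hp hpM => ?_, fun a => ?_⟩
  · exact cnt_zero γ lv S p hp (h2 (γ p) (lv p) (hB p (hS p hp) hpM))
  · funext j
    have h3 := h1 a j
    have h4 : ∑ v, (mrg E (cnt (lc γ lv) S) a v : ZMod 2) * tv v j =
        ∑ p ∈ sys γ E S a, lb p j := by
      have h5 : ∀ v, mrg E (cnt (lc γ lv) S) a v = cnt lv (sys γ E S a) v := fun v =>
        mrg_cnt γ lv E S a v
      simp only [h5]
      rw [sum_cnt lv (sys γ E S a) (fun v => tv v j)]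
      exact sum_congr rfl fun p hp => by rw [htv p (hS p (mem_sys.1 hp).1)]
    rw [h4] at h3
    rw [Finset.sum_apply, Pi.zero_apply]
    exact h3

theorem ndG_congr {lb : ℕ → Gr r} {K : ℕ} {S₀ S₁ : Finset ℕ} {γ γ' : ℕ → Q}
    (h : ∀ p ∈ S₀ ∪ S₁, γ p = γ' p) : NdG lb K γ S₀ S₁ ↔ NdG lb K γ' S₀ S₁ := by
  have h1 : ∀ p ∈ S₁, γ p = γ' p := fun p hp => h p (mem_union_right _ hp)
  unfold NdG
  refine forall_congr' fun q => ?_
  refine and_congr ?_ ?_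
  · refine forall_congr' fun w => forall_congr' fun _ => ?_
    constructor
    · rintro ⟨p, h2, h3, h4⟩
      exact ⟨p, h2, by rw [← h1 p h2]; exact h3, h4⟩
    · rintro ⟨p, h2, h3, h4⟩
      exact ⟨p, h2, by rw [h1 p h2]; exact h3, h4⟩
  · refine forall_congr' fun π => ?_
    have e1 : (S₁.filter fun p => γ p = q ∧ lb p = π) = S₁.filter fun p => γ' p = q ∧ lb p = π :=
      filter_congr fun p hp => by rw [h1 p hp]
    rw [e1]

theorem gdG_congr {D : Par r} {lb : ℕ → Gr r} {ρ : ℕ} {E : I → Finset Q} {S : Finset ℕ}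
    {γ γ' : ℕ → Q} (h : ∀ p ∈ S, γ p = γ' p) :
    (∀ a, Gk D lb nr ρ (sys γ E S a)) ↔ ∀ a, Gk D lb nr ρ (sys γ' E S a) :=
  forall_congr' fun a => by rw [sys_congr h a]

end main

/-- **GK-ASYG.** -/
theorem t_ASYG (hA : S_ASYA) (hB : S_BIL) (hL : S_LAG) (hSub : S_SUB) (hBx : S_BOXG)
    (hR : ∀ (r : ℕ) (D : Par r) (M : ℕ)
      (lb : ℕ → Gr r), LabOk D M lb → ∀ (Q : Type) [Fintype Q] [Nonempty Q] (K : ℕ) (ε : ℝ), 0 < ε →
      ∃ X₀ : ℕ, ∀ X : ℕ, X₀ ≤ X →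
      ∑ S ∈ (SA X).filter (fun S => S.card ≤ kk X ∧ ∀ p ∈ S, ¬ p ∣ M),
        pr S (fun γ : ℕ → Q => ¬ NdG lb K γ (sm (zz X) S) (la (zz X) S)) ≤ ε * X)
    (hkap : ∀ ρ, 0 ≤ kap ρ ∧ kap ρ ≤ 1) : S_ASYG := by
  intro r D hD e he ρ hρ M lb hlb V _ lv tv Bad hBad htv I Q _ _ _ E hE P hP ε hε
  obtain ⟨C, hC⟩ := bilK hB
  obtain ⟨K, hK⟩ := hL r D hD e he ρ hρ I Q E hE (ε / 3) (by linarith)
  obtain ⟨B, hBB⟩ := hBx hSub r D M lb hlb ρ I Q E hE (ε / 3) K hK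
  have hok := okG hBad htv hP
  have hrare : RareA lv P (NdG lb K) (ε / 3) := by
    obtain ⟨X₀, h0⟩ := hR r D M lb hlb Q K (ε / 3) (by linarith)
    refine ⟨X₀, fun X hX => le_trans ?_ (h0 X hX)⟩
    have hsub : (SA X).filter (fun S => S.card ≤ kk X ∧ ∀ p ∈ S, ¬ p ∣ M) ⊆
        (SA X).filter (fun S => S.card ≤ kk X) := fun S hS => by
      rw [mem_filter] at hS ⊢
      exact ⟨hS.1, hS.2.1⟩
    have hz : ∀ S ∈ (SA X).filter (fun S => S.card ≤ kk X),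
        S ∉ (SA X).filter (fun S => S.card ≤ kk X ∧ ∀ p ∈ S, ¬ p ∣ M) →
        pr S (fun γ : ℕ → Q => P (cnt (lc γ lv) S) ∧
          ¬ NdG lb K γ (sm (zz X) S) (la (zz X) S)) = 0 := by
      intro S hS hS'
      rw [mem_filter] at hS hS'
      apply pr_false
      rintro γ ⟨h1, -⟩
      apply hS'
      refine ⟨hS.1, hS.2, ?_⟩
      have hSo : ∀ p ∈ S, Po p := by
        have := hS.1
        unfold SA at this
        rw [mem_filter] at this
        exact this.2.1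
      exact (hok.2 γ S hSo h1).1
    rw [← sum_subset hsub hz]
    refine sum_le_sum fun S _ => pr_mono fun γ h => h.2
  obtain ⟨X₀, h0⟩ := hA Q V lv PairK C hC P (NdG lb K) (fun γ S => ∀ a, Gk D lb nr ρ (sys γ E S a))
    (kap ρ ^ Fintype.card I) (ε / 3) B (pow_nonneg (hkap ρ).1 _)
    (pow_le_one₀ (hkap ρ).1 (hkap ρ).2) (by linarith)
    (fun S γ γ' h => gdG_congr h) (fun S₀ S₁ γ γ' h => ndG_congr h)
    (fun γ => hBB V lv P hok γ) hrare
  refine ⟨X₀, fun X hX => (h0 X hX).trans ?_⟩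
  have : 3 * (ε / 3) * (X : ℝ) = ε * X := by ring
  linarith

end Pool.Agent.N869.GK.A
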