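import Pool.Agent.N869.ZE.A.Fam
import Pool.Agent.N869.GK.Stm

/-!
# Project GK: the colour layer, almost all sets
-/

set_option autoImplicit false
set_option linter.unusedSectionVars false
set_option linter.unusedVariables false

open scoped Classical

namespace Pool.Agent.N869.GK.A

open Finset Filter Topology
open Pool.Agent.Y703.CQ (nr)
open Pool.Agent.N916.GB (Po SA)
open Pool.Agent.N869.QT.L (Fam)
open Pool.Agent.N869.QT.G (sys exC pr Dep)
open Pool.Agent.N869.ZE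
open Pool.Agent.N869.ZE.A (Cl Cov Many pr_cl pr_deg lvB PB PB_iff fam_left fam_EE exists_all
  ncard_enc pr_eq tend0 card_SA' card_split)
open Pool.Agent.N869.GK

variable {Q : Type} [Fintype Q] [Nonempty Q] {m r : ℕ}

/-- the systems of labels with sum zero -/
theorem okPG {I : Type} {E : I → Finset Q} {v : Q → Fin m → ZMod 2} {l : I → Fin m → ZMod 2}
    (hE : ∀ a q, q ∈ E a ↔ ∑ i, l a i * v q i = 1) :
    OkP E (AdG fun x : Gr r × Bool => x.1) {x | x.2 = true} (PB v fun _ _ => 0) := by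
  rintro n ⟨h1, h2⟩
  refine ⟨fun a j => ?_, fun q x hx => ?_⟩
  · have e1 : ∀ q, (if q ∈ E a then (1 : ZMod 2) else 0) = ∑ i, l a i * v q i := by
      intro q
      split_ifs with h
      · exact ((hE a q).1 h).symm
      · have h3 : ∑ i, l a i * v q i ≠ 1 := fun h4 => h ((hE a q).2 h4)
        revert h3
        generalize ∑ i, l a i * v q i = z
        revert z
        decide
    have e2 : ∀ x : Gr r × Bool, (mrg E n a x : ZMod 2) * x.1 j =
        ∑ q, (n (q, x) : ZMod 2) * ((∑ i, l a i * v q i) * x.1 j) := by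
      intro x
      unfold mrg
      rw [Nat.cast_sum, sum_mul]
      have e3 : ∀ q, (n (q, x) : ZMod 2) * ((∑ i, l a i * v q i) * x.1 j) =
          if q ∈ E a then (n (q, x) : ZMod 2) * x.1 j else 0 := by
        intro q
        rw [← e1 q]
        split_ifs <;> ring
      rw [sum_congr rfl fun q _ => e3 q, ← sum_filter]
      refine sum_congr ?_ fun _ _ => rfl
      ext q
      rw [mem_filter]
      exact ⟨fun h => ⟨mem_univ _, h⟩, fun h => h.2⟩
    show ∑ x : Gr r × Bool, (mrg E n a x : ZMod 2) * x.1 j = 0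
    rw [sum_congr rfl fun x _ => e2 x, sum_comm, ← Fintype.sum_prod_type
      (f := fun z : Q × (Gr r × Bool) =>
        (n z : ZMod 2) * ((∑ i, l a i * v z.1 i) * z.2.1 j))]
    have e4 : ∀ z : Q × (Gr r × Bool),
        (n z : ZMod 2) * ((∑ i, l a i * v z.1 i) * z.2.1 j) =
          ∑ i, l a i * ((n z : ZMod 2) * (v z.1 i * z.2.1 j)) := by
      intro z
      rw [sum_mul, mul_sum]
      exact sum_congr rfl fun i _ => by ring
    rw [sum_congr rfl fun z _ => e4 z, sum_comm]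
    refine sum_eq_zero fun i _ => ?_
    have h3 : ∑ z : Q × (Gr r × Bool), (n z : ZMod 2) * (v z.1 i * z.2.1 j) = 0 := h2 i j
    rw [← mul_sum, h3, mul_zero]
  · obtain ⟨x1, x2⟩ := x
    have hx' : x2 = true := hx
    subst hx'
    exact h1 q x1

/-- the data of a family of systems of colours -/
structure Dat (I I' : Type) (Q : Type) [Fintype Q] (m r : ℕ) where
  v : Q → Fin m → ZMod 2
  l : I → Fin m → ZMod 2
  E : I → Finset Q
  hE : ∀ a q, q ∈ E a ↔ ∑ i, l a i * v q i = 1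
  fam : Fam E
  nu : ∀ a, E a ≠ univ
  M : ℕ
  lb : ℕ → Gr r
  k : ℕ
  cov : Cov k v
  many : ∀ (j : Fin r) (k : ℕ) (ε : ℝ), 0 < ε → ∃ X₀ : ℕ, ∀ X : ℕ, X₀ ≤ X →
    (((SA X).filter fun S => (S.filter fun p => lb p = Pi.single j 1).card < k).card : ℝ) ≤ ε * X
  E' : I' → Finset Q
  ne' : ∀ a, (E' a).Nonempty
  hr : 0 < r

/-- the bad primes -/
def bd (M : ℕ) : Set ℕ := {p | p ∣ M}

/-- the class of the data -/
def Dat.C {I I' : Type} (D : Dat I I' Q m r) (S : Finset ℕ) (γ : ℕ → Q) : Prop :=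
  Cl D.lb (bd D.M) D.v (fun _ _ => 0) γ S

/-- the averages, for the class of labels -/
def AsyH (c : ℝ) (Gd : Finset ℕ → Prop) (M : ℕ) (lb : ℕ → Gr r) : Prop :=
  ∀ (I Q : Type) [Fintype I] [Fintype Q] [Nonempty Q] (E : I → Finset Q), Fam E →
    AsyE SA Gd c (lvB lb (bd M)) (AdG fun x : Gr r × Bool => x.1) {x | x.2 = true} E

theorem sqE {c : ℝ} {Gd : Finset ℕ → Prop} (hSQ : S_SQ2) {I I' : Type} [Fintype I]
    (D : Dat I I' Q m r) (hA : AsyH c Gd D.M D.lb) :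
    SqE SA Gd c (lvB D.lb (bd D.M)) (AdG fun x : Gr r × Bool => x.1) {x | x.2 = true} D.E := by
  refine hSQ ℕ SA Gd c _ _ _ _ I Q D.E ?_ ?_
  · exact hA (I ⊕ I) (Q × Q) (EE D.E) (fam_EE D.fam D.nu)
  · exact hA I (Q × Q) _ (fam_left D.fam)

/-- the three estimates -/
def Est {I I' : Type} [Fintype I] (D : Dat I I' Q m r) (c : ℝ) (Gd : Finset ℕ → Prop) (δ : ℝ)
    (S : Finset ℕ) : Prop :=
  0 < pr S (D.C S) ∧
    |pr S (fun γ : ℕ → Q => D.C S γ ∧ ∀ a, Gd (sys γ D.E S a)) -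
      c ^ Fintype.card I * pr S (D.C S)| ≤ δ * pr S (D.C S) ∧
    pr S (fun γ : ℕ → Q => D.C S γ ∧ ∃ a, sys γ D.E' S a = ∅) ≤ δ * pr S (D.C S)

theorem t_MQ {c : ℝ} {Gd : Finset ℕ → Prop} (hSQ : S_SQ2) {I I' : Type} [Fintype I] [Fintype I']
    (D : Dat I I' Q m r) (hA : AsyH c Gd D.M D.lb) : ∀ δ ε : ℝ, 0 < δ → 0 < ε →
    ∃ X₀ : ℕ, ∀ X : ℕ, X₀ ≤ X →
    (((SA X).filter fun S => (∀ p ∈ S, p ∉ bd D.M) ∧ ¬ Est D c Gd δ S).card : ℝ) ≤ ε * X := by
  intro δ ε hδ hε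
  have hq0 : 0 < Fintype.card Q := Fintype.card_pos
  have hq : (0 : ℝ) < Fintype.card Q := by exact_mod_cast hq0
  set q : ℝ := (Fintype.card Q : ℝ) with hqdef
  set B : ℝ := 1 / q ^ (r * D.k) with hB
  have hB0 : 0 < B := by positivity
  obtain ⟨X₁, hX₁⟩ := sqE hSQ D hA (PB D.v fun _ _ => 0) (okPG D.hE) (δ * B) (ε / 3)
    (by positivity) (by positivity)
  -- the number of the elements
  have hr0 : 0 ≤ (q - 1) / q := by
    have : (1 : ℝ) ≤ q := by
      rw [hqdef]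
      exact_mod_cast hq0
    exact div_nonneg (by linarith) hq.le
  have hr1 : (q - 1) / q < 1 := by
    rw [div_lt_one hq]
    linarith
  obtain ⟨n, hn⟩ := exists_pow_lt_of_lt_one
    (show 0 < δ * B / ((Fintype.card I' : ℝ) + 1) by positivity) hr1
  have hk := exists_all (fun (j : Fin r) (X : ℕ) =>
    (((SA X).filter fun S => (S.filter fun p => D.lb p = Pi.single j 1).card <
      max n D.k).card : ℝ) ≤ ε / (3 * r) * X) fun j =>
    D.many j (max n D.k) (ε / (3 * r)) (by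
      have : (0 : ℝ) < r := by exact_mod_cast D.hr
      positivity)
  obtain ⟨X₂, hX₂⟩ := hk
  refine ⟨max X₁ X₂, fun X hX => ?_⟩
  have h1 := hX₁ X (le_trans (le_max_left _ _) hX)
  have h2 := hX₂ X (le_trans (le_max_right _ _) hX)
  have h3 : (((univ : Finset (Fin r)).biUnion fun j => (SA X).filter fun S =>
      (S.filter fun p => D.lb p = Pi.single j 1).card < max n D.k).card : ℝ) ≤ ε / 3 * X := by
    have h4 : (((univ : Finset (Fin r)).biUnion fun j => (SA X).filter fun S =>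
        (S.filter fun p => D.lb p = Pi.single j 1).card < max n D.k).card : ℝ) ≤
        ∑ j : Fin r, (((SA X).filter fun S =>
          (S.filter fun p => D.lb p = Pi.single j 1).card < max n D.k).card : ℝ) := by
      exact_mod_cast card_biUnion_le
    refine h4.trans ((sum_le_sum fun j _ => h2 j).trans (le_of_eq ?_))
    rw [sum_const, card_univ, Fintype.card_fin, nsmul_eq_mul]
    have : (r : ℝ) ≠ 0 := by exact_mod_cast D.hr.ne'
    field_simp
  have hX0 : (0 : ℝ) ≤ X := Nat.cast_nonneg _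
  refine le_trans ?_ (show ε / 3 * X + ε / 3 * X ≤ ε * X by nlinarith)
  refine le_trans ?_ (add_le_add h1 h3)
  rw [← Nat.cast_add, Nat.cast_le]
  refine le_trans (card_le_card ?_) (card_union_le _ _)
  intro S hS
  rw [mem_filter] at hS
  obtain ⟨hS, hSb, hbad⟩ := hS
  rw [mem_union, mem_filter, mem_biUnion]
  by_contra hcon
  apply hbad
  rw [not_or] at hcon
  obtain ⟨hc1, hc2⟩ := hcon
  have hc1' := not_lt.1 fun h => hc1 ⟨hS, h⟩
  have hc2' : ∀ j : Fin r, max n D.k ≤ (S.filter fun p => D.lb p = Pi.single j 1).card :=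
    fun j => not_lt.1 fun h => hc2 ⟨j, mem_univ _, mem_filter.2 ⟨hS, h⟩⟩
  have hMany : Many D.k D.lb S := fun j => le_trans (le_max_right _ _) (hc2' j)
  have hcardn : n ≤ S.card :=
    le_trans (le_trans (le_max_left _ _) (hc2' ⟨0, D.hr⟩)) (card_filter_le _ _)
  have hy : B ≤ pr S (D.C S) := pr_cl (fun _ _ => 0) hSb D.cov hMany
  have hlow : δ * B ≤ δ * pr S (D.C S) := mul_le_mul_of_nonneg_left hy hδ.le
  refine ⟨lt_of_lt_of_le hB0 hy, ?_, ?_⟩
  · have e1 : pr S (fun γ : ℕ → Q => PB D.v (fun _ _ => 0) (cnt (lc γ (lvB D.lb (bd D.M))) S) ∧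
        ∀ a, Gd (sys γ D.E S a)) =
        pr S (fun γ : ℕ → Q => D.C S γ ∧ ∀ a, Gd (sys γ D.E S a)) :=
      pr_congr fun γ => and_congr (PB_iff _ _ _ _ _ _) Iff.rfl
    have e2 : pr S (fun γ : ℕ → Q => PB D.v (fun _ _ => 0) (cnt (lc γ (lvB D.lb (bd D.M))) S)) =
        pr S (D.C S) := pr_congr fun γ => PB_iff _ _ _ _ _ _
    rw [e1, e2] at hc1'
    exact hc1'.trans hlow
  · refine le_trans (pr_mono fun γ h => h.2) ((pr_deg D.E' D.ne' S).trans (le_trans ?_ hlow))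
    rw [← hqdef]
    have h3 : ((q - 1) / q) ^ S.card ≤ ((q - 1) / q) ^ n := pow_le_pow_of_le_one hr0 hr1.le hcardn
    have h4 : (Fintype.card I' : ℝ) * ((q - 1) / q) ^ S.card ≤
        (Fintype.card I' : ℝ) * (δ * B / ((Fintype.card I' : ℝ) + 1)) :=
      mul_le_mul_of_nonneg_left (h3.trans hn.le) (Nat.cast_nonneg _)
    refine h4.trans ?_
    rw [mul_div_assoc']
    rw [div_le_iff₀ (by positivity)]
    have h5 : (0 : ℝ) ≤ δ * B := by positivity
    nlinarith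

/-- the proportion of the good elements of a family -/
theorem close_of {c : ℝ} (hc : 0 ≤ c ∧ c ≤ 1) {Gd : Finset ℕ → Prop} {I I' : Type} [Fintype I]
    [Fintype I'] (D : Dat I I' Q m r) {S : Finset ℕ} {Ω : Type}
    {enc : (S → Q) → Ω} (hinj : Function.Injective enc) {fam : Set Ω}
    (hfam : ∀ ω ∈ fam, ∃ c, enc c = ω)
    (h1 : ∀ c, enc c ∈ fam ↔ D.C S (exC S c) ∧ ¬ ∃ a, sys (exC S c) D.E' S a = ∅)
    {good : Ω → Prop}
    (h2 : ∀ c, D.C S (exC S c) → (good (enc c) ↔ ∀ a, Gd (sys (exC S c) D.E S a)))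
    {δ : ℝ} (hδ : 0 < δ) (hδ1 : δ ≤ 1 / 2) (hp : Est D c Gd δ S) :
    fam.Finite ∧ 0 < fam.ncard ∧
      |({ω ∈ fam | good ω}.ncard : ℝ) / (fam.ncard : ℝ) - c ^ Fintype.card I| ≤ 6 * δ := by
  obtain ⟨hp0, hp1, hp2⟩ := hp
  obtain ⟨hfin, hN⟩ := ncard_enc hinj fam hfam
  obtain ⟨-, hG⟩ := ncard_enc hinj {ω ∈ fam | good ω} fun ω h => hfam ω h.1
  have hq : (0 : ℝ) < (Fintype.card Q : ℝ) ^ S.card := by
    have : (0 : ℝ) < Fintype.card Q := by exact_mod_cast Fintype.card_pos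
    positivity
  set q : ℝ := (Fintype.card Q : ℝ) ^ S.card with hqd
  set nC := (univ.filter fun c : S → Q => D.C S (exC S c)).card with hnC
  set nG := (univ.filter fun c : S → Q => D.C S (exC S c) ∧
    ∀ a, Gd (sys (exC S c) D.E S a)).card with hnG
  set nD := (univ.filter fun c : S → Q => D.C S (exC S c) ∧
    ∃ a, sys (exC S c) D.E' S a = ∅).card with hnD
  have hcard : nC = fam.ncard + nD := by
    rw [hN, hnC, hnD, ← card_union_of_disjoint]
    · congr 1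
      ext c
      rw [mem_union, mem_filter, mem_filter, mem_filter, h1 c]
      have := mem_univ c
      tauto
    · rw [Finset.disjoint_left]
      intro c hc1 hc2
      rw [mem_filter] at hc1 hc2
      exact ((h1 c).1 hc1.2).2 hc2.2.2
  have hg1 : {ω ∈ fam | good ω}.ncard ≤ nG := by
    rw [hG, hnG]
    refine card_le_card fun c hc => ?_
    simp only [mem_filter] at hc ⊢
    obtain ⟨h3, h4, h5⟩ := hc
    have h6 := ((h1 c).1 h4).1
    exact ⟨h3, h6, (h2 c h6).1 h5⟩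
  have hg2 : nG ≤ {ω ∈ fam | good ω}.ncard + nD := by
    rw [hG, hnG, hnD]
    refine (card_le_card ?_).trans (card_union_le _ _)
    intro c hc
    simp only [mem_filter] at hc
    obtain ⟨h3, h4, h5⟩ := hc
    simp only [mem_union, mem_filter]
    by_cases h6 : ∃ a, sys (exC S c) D.E' S a = ∅
    · right
      exact ⟨h3, h4, h6⟩
    · left
      exact ⟨h3, (h1 c).2 ⟨h4, h6⟩, (h2 c h4).2 h5⟩
  have eC : pr S (D.C S) = nC / q := pr_eq S (D.C S) _ _
  have eG : pr S (fun γ : ℕ → Q => D.C S γ ∧ ∀ a, Gd (sys γ D.E S a)) = nG / q :=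
    pr_eq S (fun γ : ℕ → Q => D.C S γ ∧ ∀ a, Gd (sys γ D.E S a)) _ _
  have eD : pr S (fun γ : ℕ → Q => D.C S γ ∧ ∃ a, sys γ D.E' S a = ∅) = nD / q :=
    pr_eq S (fun γ : ℕ → Q => D.C S γ ∧ ∃ a, sys γ D.E' S a = ∅) _ _
  rw [eC] at hp0
  rw [eG, eC] at hp1
  rw [eD, eC] at hp2
  set c' := c ^ Fintype.card I with hcd
  have hc0 : 0 ≤ c' := pow_nonneg hc.1 _
  have hc1 : c' ≤ 1 := pow_le_one₀ hc.1 hc.2
  have hC0 : (0 : ℝ) < nC := by
    have := mul_pos hp0 hq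
    rwa [div_mul_cancel₀ _ hq.ne'] at this
  have hp1' : |(nG : ℝ) - c' * nC| ≤ δ * nC := by
    have h3 : (nG : ℝ) / q - c' * (nC / q) = (nG - c' * nC) / q := by ring
    rw [h3, abs_div, abs_of_pos hq, div_le_iff₀ hq] at hp1
    refine hp1.trans (le_of_eq ?_)
    field_simp
  have hp2' : (nD : ℝ) ≤ δ * nC := by
    rw [div_le_iff₀ hq] at hp2
    refine hp2.trans (le_of_eq ?_)
    field_simp
  have hN' : (nC : ℝ) = fam.ncard + nD := by exact_mod_cast hcard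
  have hg1' : ({ω ∈ fam | good ω}.ncard : ℝ) ≤ nG := by exact_mod_cast hg1
  have hg2' : (nG : ℝ) ≤ {ω ∈ fam | good ω}.ncard + nD := by exact_mod_cast hg2
  have hD0 : (0 : ℝ) ≤ nD := Nat.cast_nonneg _
  set N : ℝ := (fam.ncard : ℝ) with hNd
  set G : ℝ := ({ω ∈ fam | good ω}.ncard : ℝ) with hGd
  have hNlow : (nC : ℝ) ≤ 2 * N := by nlinarith
  have hNpos : 0 < N := by linarith
  have hNpos' : 0 < fam.ncard := by
    have : (0 : ℝ) < (fam.ncard : ℝ) := hNpos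
    exact_mod_cast this
  refine ⟨hfin, hNpos', ?_⟩
  rw [div_sub' hNpos.ne', abs_div, abs_of_pos hNpos, div_le_iff₀ hNpos]
  obtain ⟨k1, k2⟩ := abs_le.1 hp1'
  have h7 : N * c' = c' * nC - c' * nD := by
    rw [hN']
    ring
  have h8 : c' * nD ≤ nD := by nlinarith
  have h9 : 0 ≤ c' * nD := mul_nonneg hc0 hD0
  rw [h7, abs_le]
  constructor <;> nlinarith

/-- the numbers `1` modulo `M` -/
theorem low {M : ℕ} (hM : 0 < M) (h2 : 2 ∣ M) : ∃ (c : ℝ) (X₀ : ℕ), 0 < c ∧ ∀ X : ℕ, X₀ ≤ X →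
    c * X ≤ (((Icc 1 X).filter fun f => Squarefree f ∧ f.Coprime M).card : ℝ) := by
  have hM1 : 1 < M := by
    obtain ⟨k, rfl⟩ := h2
    omega
  refine ⟨1 / (4 * (M : ℝ)), (4 * M + 4) * (4 * M + 4), ?_, fun X hX => ?_⟩
  · have : (0 : ℝ) < (M : ℝ) := by exact_mod_cast hM
    positivity
  · have h := Pool.Agent.N856.JL.Tr.lowM (M := M) (a := 1) hM h2 one_pos
      hM1 (Nat.coprime_one_left _) X hX
    refine h.trans (Nat.cast_le.2 (card_le_card fun f hf => ?_))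
    rw [mem_filter] at hf ⊢
    refine ⟨hf.1, hf.2.1, ?_⟩
    have h1 : f % M = 1 := hf.2.2
    rw [Nat.coprime_iff_gcd_eq_one, Nat.gcd_comm, Nat.gcd_rec, h1]
    exact Nat.gcd_one_left _

/-- the general conclusion -/
theorem final {c : ℝ} {Gd : Finset ℕ → Prop} (hSQ : S_SQ2) {I I' : Type} [Fintype I] [Fintype I']
    (D : Dat I I' Q m r) (hA : AsyH c Gd D.M D.lb) (hM : 0 < D.M) (h2 : 2 ∣ D.M)
    {δ : ℝ} (hδ : 0 < δ) {Cls : ℕ → Prop}
    (hCls : ∀ f : ℕ, Squarefree f → f.Coprime D.M → Est D c Gd δ f.primeFactors → Cls f)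
    (i1 : DecidablePred fun f : ℕ => (Squarefree f ∧ f.Coprime D.M) ∧ Cls f)
    (i2 : DecidablePred fun f : ℕ => Squarefree f ∧ f.Coprime D.M) :
    Tendsto (fun X : ℕ => ((@Finset.filter ℕ (fun f => (Squarefree f ∧ f.Coprime D.M) ∧
      Cls f) i1 (Icc 1 X)).card : ℝ) /
      ((@Finset.filter ℕ (fun f => Squarefree f ∧ f.Coprime D.M) i2 (Icc 1 X)).card : ℝ))
      atTop (𝓝 1) := by
  have hl : ∃ (c : ℝ) (X₀ : ℕ), 0 < c ∧ ∀ X : ℕ, X₀ ≤ X → c * X ≤
      ((@Finset.filter ℕ (fun f => Squarefree f ∧ f.Coprime D.M) i2 (Icc 1 X)).card : ℝ) := by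
    obtain ⟨c, X₀, hc, h⟩ := low hM h2
    refine ⟨c, X₀, hc, fun X hX => (h X hX).trans (le_of_eq ?_)⟩
    exact congrArg (fun x : ℕ => (x : ℝ)) (filter_card_inst
      (fun f : ℕ => Squarefree f ∧ f.Coprime D.M) _ _ _)
  refine tend0 (B := fun X => ((Icc 1 X).filter fun f => (Squarefree f ∧ f.Coprime D.M) ∧
      ¬ Cls f).card) (fun X => card_split (fun f => Squarefree f ∧ f.Coprime D.M) Cls i2 i1 _
      (Icc 1 X)) hl fun ε hε => ?_
  obtain ⟨X₀, h0⟩ := t_MQ hSQ D hA δ ε hδ hε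
  refine ⟨X₀, fun X hX => le_trans ?_ (h0 X hX)⟩
  rw [card_SA' X (fun S => (∀ p ∈ S, p ∉ bd D.M) ∧ ¬ Est D c Gd δ S) _
    fun f => Classical.propDecidable _]
  refine Nat.cast_le.2 (card_le_card fun f hf => ?_)
  simp only [mem_filter] at hf ⊢
  obtain ⟨hf1, ⟨hf2, hf3⟩, hf4⟩ := hf
  refine ⟨hf1, ⟨hf2, ?_⟩, ?_, fun h => hf4 (hCls f hf2 hf3 h)⟩
  · by_contra h
    have h5 : 2 ∣ Nat.gcd f D.M := Nat.dvd_gcd (by omega) h2
    rw [Nat.coprime_iff_gcd_eq_one.1 hf3] at h5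
    omega
  · intro p hp hpM
    have hp' := Nat.mem_primeFactors.1 hp
    have h5 : p ∣ Nat.gcd f D.M := Nat.dvd_gcd hp'.2.1 hpM
    rw [Nat.coprime_iff_gcd_eq_one.1 hf3] at h5
    exact hp'.1.one_lt.ne' (Nat.dvd_one.1 h5)

end Pool.Agent.N869.GK.A
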