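import Pool.Agent.N869.ZE.A.TrF
import Pool.Agent.N869.GK.A.Dat

/-!
# Project GK: tuples of divisors
-/

set_option autoImplicit false
set_option linter.unusedSectionVars false
set_option linter.unusedVariables false

open scoped Classical

namespace Pool.Agent.N869.GK.A

open Finset Filter Topology
open Pool.Agent.Y703.CQ (nr)
open Pool.Agent.N916.GB (Po SA)
open Pool.Agent.N856.JL (sfp)
open Pool.Agent.N869.QT.L (Fam)
open Pool.Agent.N869.QT.G (sys exC pr Dep)
open Pool.Agent.N869.ZE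
open Pool.Agent.N869.ZE.A (Cl Cov Many tpl tpl_pf tpl_inj tpl_surj dvd_tpl od sfp_tpl sq_iff prod_pf
  ind sum_ind sum_single single_ne two_sum zero_sum sum_mul_z2 Indp tpl_sub sys_od single_inj)
open Pool.Agent.N869.GK

/-- the colours; `b` says that every prime divisor of `f` is used -/
abbrev QB (b : Bool) (n : ℕ) : Type := {w : Fin n → ZMod 2 // b = true → w ≠ 0}

theorem ne_QB {b : Bool} {n : ℕ} (hn : b = true → 2 ≤ n) : Nonempty (QB b n) := by
  cases b with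
  | false => exact ⟨⟨0, fun h => by cases h⟩⟩
  | true =>
    have := hn rfl
    exact ⟨⟨Pi.single ⟨0, by omega⟩ 1, fun _ => single_ne _⟩⟩

/-- the colours that meet `T` in an odd number of elements -/
noncomputable def EB {b : Bool} {n : ℕ} (T : Finset (Fin n)) : Finset (QB b n) :=
  univ.filter fun q => ∑ i ∈ T, q.1 i = 1

theorem mem_EB {b : Bool} {n : ℕ} {T : Finset (Fin n)} {q : QB b n} :
    q ∈ EB T ↔ ∑ i ∈ T, q.1 i = 1 := by
  unfold EB
  rw [mem_filter]
  exact ⟨fun h => h.2, fun h => ⟨mem_univ _, h⟩⟩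

theorem covB {b : Bool} {n : ℕ} (hn : b = true → 2 ≤ n) : Cov 2 (fun q : QB b n => q.1) := by
  intro x
  cases b with
  | false =>
    refine ⟨![⟨x, fun h => by cases h⟩, ⟨0, fun h => by cases h⟩], fun i => ?_⟩
    rw [Fin.sum_univ_two]
    exact add_zero _
  | true =>
    obtain ⟨u, w, hu, hw, h⟩ := two_sum (hn rfl) x
    refine ⟨![⟨u, fun _ => hu⟩, ⟨w, fun _ => hw⟩], fun i => ?_⟩
    rw [Fin.sum_univ_two, ← h]
    rfl

/-- many primes of each label -/
def ManyL {r : ℕ} (L : ℕ → Gr r) : Prop := ∀ (j : Fin r) (k : ℕ) (ε : ℝ), 0 < ε →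
  ∃ X₀ : ℕ, ∀ X : ℕ, X₀ ≤ X →
    (((SA X).filter fun S => (S.filter fun p => L p = Pi.single j 1).card < k).card : ℝ) ≤ ε * X

/-- the data for the tuples -/
noncomputable def DT {r : ℕ} (hr : 0 < r) {L : ℕ → Gr r} (hM : ManyL L) (M : ℕ) {b : Bool} {n : ℕ}
    (hn : b = true → 2 ≤ n) (𝒯 : Finset (Finset (Fin n))) (h𝒯 : ∀ T ∈ 𝒯, T.Nonempty) :
    Dat 𝒯 {T : Finset (Fin n) // T.Nonempty} (QB b n) n r where
  v := fun q => q.1
  l := fun T => ind T.1
  E := fun T => EB T.1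
  hE := fun T q => by rw [mem_EB, sum_ind]
  fam :=
    { inj := fun T T' h => by
        refine Subtype.ext ?_
        ext i
        have h' : (EB T.1 : Finset (QB b n)) = EB T'.1 := h
        rw [← sum_single T.1 i, ← sum_single T'.1 i,
          ← mem_EB (q := (⟨Pi.single i 1, fun _ => single_ne i⟩ : QB b n)), h', mem_EB]
      ne := fun T => by
        obtain ⟨i, hi⟩ := h𝒯 T.1 T.2
        exact ⟨⟨Pi.single i 1, fun _ => single_ne i⟩, mem_EB.2 ((sum_single T.1 i).2 hi)⟩ }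
  nu := fun T h => by
    cases b with
    | false =>
      have h1 : (⟨0, fun h => by cases h⟩ : QB false n) ∈ EB T.1 := by
        rw [h]
        exact mem_univ _
      rw [mem_EB] at h1
      simp at h1
    | true =>
      obtain ⟨w, hw, hs⟩ := zero_sum (hn rfl) T.1
      have h1 : (⟨w, fun _ => hw⟩ : QB true n) ∈ EB T.1 := by
        rw [h]
        exact mem_univ _
      exact hs (mem_EB.1 h1)
  M := M
  lb := L
  k := 2
  cov := covB hn
  many := hM
  E' := fun T => EB T.1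
  ne' := fun T => by
    obtain ⟨i, hi⟩ := T.2
    exact ⟨⟨Pi.single i 1, fun _ => single_ne i⟩, mem_EB.2 ((sum_single T.1 i).2 hi)⟩
  hr := hr

/-- the tuples of divisors of `f` with label zero -/
def famT {r : ℕ} (L : ℕ → Gr r) (b : Bool) (n f : ℕ) : Set (Fin n → ℕ) :=
  {x | (∀ i, x i ∣ f ∧ L (x i) = 0) ∧ Indp x ∧
    (b = true → ∀ p : ℕ, p.Prime → p ∣ f → ∃ i, p ∣ x i)}

/-- the good tuples -/
def goodT {n : ℕ} (G : Finset ℕ → Prop) (𝒯 : Finset (Finset (Fin n))) (x : Fin n → ℕ) : Prop :=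
  ∀ T ∈ 𝒯, G (sfp (∏ i ∈ T, x i)).primeFactors

/-- the labels are additive -/
def AddL {r : ℕ} (M : ℕ) (L : ℕ → Gr r) : Prop :=
  ∀ S : Finset ℕ, (∀ p ∈ S, p.Prime ∧ ¬ p ∣ M) → L (∏ p ∈ S, p) = ∑ p ∈ S, L p

theorem L_tpl {r n : ℕ} {L : ℕ → Gr r} {M : ℕ} (hL : AddL M L) {Q : Type} {v : Q → Fin n → ZMod 2}
    {S : Finset ℕ} (hS : ∀ p ∈ S, p.Prime ∧ ¬ p ∣ M) {γ : ℕ → Q} {i : Fin n} :
    L (tpl v S γ i) = 0 ↔ ∀ j, ∑ p ∈ S, v (γ p) i * L p j = 0 := by
  unfold tpl
  rw [hL _ fun p hp => hS p (mem_filter.1 hp).1, funext_iff]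
  refine forall_congr' fun j => ?_
  rw [Finset.sum_apply, sum_mul_z2 (fun p => v (γ p) i) fun p => L p j]
  rfl

/-- the main theorem for tuples -/
theorem tuples {c : ℝ} {G : Finset ℕ → Prop} (hc : 0 ≤ c ∧ c ≤ 1) (hSQ : S_SQ2) {r : ℕ}
    (hr : 0 < r) {L : ℕ → Gr r} {M : ℕ} (hM : 0 < M) (h2 : 2 ∣ M) (hLM : ManyL L)
    (hL : AddL M L) (hA : AsyH c G M L) {b : Bool} {n : ℕ} (hn : b = true → 2 ≤ n)
    (𝒯 : Finset (Finset (Fin n))) (h𝒯 : ∀ T ∈ 𝒯, T.Nonempty) {δ₀ : ℝ} (hδ₀ : 0 < δ₀)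
    (i1 : DecidablePred fun f : ℕ => (Squarefree f ∧ f.Coprime M) ∧
      ((famT L b n f).Finite ∧ 0 < (famT L b n f).ncard ∧
        |({d ∈ famT L b n f | goodT G 𝒯 d}.ncard : ℝ) / ((famT L b n f).ncard : ℝ) -
          c ^ 𝒯.card| ≤ δ₀))
    (i2 : DecidablePred fun f : ℕ => Squarefree f ∧ f.Coprime M) :
    Tendsto (fun X : ℕ => ((@Finset.filter ℕ (fun f => (Squarefree f ∧ f.Coprime M) ∧
      ((famT L b n f).Finite ∧ 0 < (famT L b n f).ncard ∧
        |({d ∈ famT L b n f | goodT G 𝒯 d}.ncard : ℝ) / ((famT L b n f).ncard : ℝ) -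
          c ^ 𝒯.card| ≤ δ₀)) i1 (Icc 1 X)).card : ℝ) /
      ((@Finset.filter ℕ (fun f => Squarefree f ∧ f.Coprime M) i2 (Icc 1 X)).card : ℝ))
      atTop (𝓝 1) := by
  haveI : Nonempty (QB b n) := ne_QB hn
  obtain ⟨δ, hδ, hδ1, hδ2⟩ : ∃ δ : ℝ, 0 < δ ∧ δ ≤ 1 / 2 ∧ 6 * δ ≤ δ₀ := by
    refine ⟨min (δ₀ / 6) (1 / 2), lt_min (by positivity) (by norm_num), min_le_right _ _, ?_⟩
    have := min_le_left (δ₀ / 6) (1 / 2)
    linarith
  refine final hSQ (DT hr hLM M hn 𝒯 h𝒯) hA hM h2 hδ ?_ i1 i2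
  intro f hf hfc hE
  have hfc : f.Coprime M := hfc
  have hS : ∀ p ∈ f.primeFactors, p.Prime := fun p hp => Nat.prime_of_mem_primeFactors hp
  have hS' : ∀ p ∈ f.primeFactors, p.Prime ∧ ¬ p ∣ M := by
    intro p hp
    refine ⟨hS p hp, fun hpM => ?_⟩
    have h5 : p ∣ Nat.gcd f M := Nat.dvd_gcd (Nat.dvd_of_mem_primeFactors hp) hpM
    rw [Nat.coprime_iff_gcd_eq_one.1 hfc] at h5
    exact (hS p hp).one_lt.ne' (Nat.dvd_one.1 h5)
  have hvinj : Function.Injective fun q : QB b n => q.1 := fun _ _ h => Subtype.ext h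
  have key := close_of hc (DT hr hLM M hn 𝒯 h𝒯) (S := f.primeFactors)
    (enc := fun c => tpl (fun q : QB b n => q.1) f.primeFactors (exC f.primeFactors c))
    (tpl_inj hvinj hS) (fam := famT L b n f) ?_ ?_ (good := goodT G 𝒯) ?_ hδ hδ1 hE
  · rw [Fintype.card_coe] at key
    exact ⟨key.1, key.2.1, key.2.2.trans hδ2⟩
  · -- surjectivity
    rintro d ⟨h1, h2, h3⟩
    have hsq : ∀ i, Squarefree (d i) := fun i => hf.squarefree_of_dvd (h1 i).1
    refine tpl_surj hS hsq (fun i p hp => ?_) fun p hp => ?_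
    · have hp' := Nat.mem_primeFactors.1 hp
      exact Nat.mem_primeFactors.2 ⟨hp'.1, hp'.2.1.trans (h1 i).1, hf.ne_zero⟩
    · refine ⟨⟨fun i => if p ∣ d i then 1 else 0, fun hb h => ?_⟩, fun i => ?_⟩
      · obtain ⟨i, hi⟩ := h3 hb p (hS p hp) (Nat.dvd_of_mem_primeFactors hp)
        have := congrFun h i
        rw [if_pos hi, Pi.zero_apply] at this
        exact absurd this (by decide)
      · show (if p ∣ d i then (1 : ZMod 2) else 0) = 1 ↔ p ∣ d i
        split_ifs with h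
        · exact ⟨fun _ => h, fun _ => rfl⟩
        · exact ⟨fun h' => absurd h' (by decide), fun h' => absurd h' h⟩
  · -- the class
    intro c
    set γ := exC f.primeFactors c with hγ
    have e0 : ∀ a : {T : Finset (Fin n) // T.Nonempty},
        sys γ (DT hr hLM M hn 𝒯 h𝒯).E' f.primeFactors a =
          od (fun q : QB b n => q.1) f.primeFactors γ a.1 := fun a => sys_od fun q => mem_EB
    have e1 : (∃ a : {T : Finset (Fin n) // T.Nonempty},
        sys γ (DT hr hLM M hn 𝒯 h𝒯).E' f.primeFactors a = ∅) ↔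
        ¬ Indp (tpl (fun q : QB b n => q.1) f.primeFactors γ) := by
      unfold Indp
      push Not
      constructor
      · rintro ⟨a, ha⟩
        exact ⟨a.1, a.2, (sq_iff hS a.1).2 ((e0 a).symm.trans ha)⟩
      · rintro ⟨T, hT, h⟩
        exact ⟨⟨T, hT⟩, (e0 ⟨T, hT⟩).trans ((sq_iff hS T).1 h)⟩
    rw [e1, not_not]
    have e2 : (DT hr hLM M hn 𝒯 h𝒯).C f.primeFactors γ ↔
        ∀ i, L (tpl (fun q : QB b n => q.1) f.primeFactors γ i) = 0 := by
      constructor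
      · rintro ⟨-, h⟩ i
        exact (L_tpl hL hS').2 fun j => h i j
      · intro h
        exact ⟨fun p hp => (hS' p hp).2, fun i j => (L_tpl hL hS').1 (h i) j⟩
    rw [e2]
    have hdvd : ∀ i, tpl (fun q : QB b n => q.1) f.primeFactors γ i ∣ f := by
      intro i
      conv_rhs => rw [← Nat.prod_primeFactors_of_squarefree hf]
      exact prod_dvd_prod_of_subset _ _ _ (filter_subset _ _)
    constructor
    · rintro ⟨h1, h2, -⟩
      exact ⟨fun i => (h1 i).2, h2⟩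
    · rintro ⟨h1, h2⟩
      refine ⟨fun i => ⟨hdvd i, h1 i⟩, h2, fun hb p hp hpf => ?_⟩
      have hpS : p ∈ f.primeFactors := Nat.mem_primeFactors.2 ⟨hp, hpf, hf.ne_zero⟩
      have h3 := (γ p).2 hb
      have h4 : ∃ i, (γ p).1 i ≠ 0 := by
        by_contra hcon
        push Not at hcon
        exact h3 (funext fun i => hcon i)
      obtain ⟨i, hi⟩ := h4
      refine ⟨i, (dvd_tpl hS hpS).2 ?_⟩
      show (γ p).1 i = 1
      revert hi
      generalize (γ p).1 i = z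
      revert z
      decide
  · -- the good tuples
    intro c hC
    set γ := exC f.primeFactors c with hγ
    have e3 : ∀ T : Finset (Fin n), (sfp (∏ i ∈ T, tpl (fun q : QB b n => q.1)
        f.primeFactors γ i)).primeFactors = od (fun q : QB b n => q.1) f.primeFactors γ T := by
      intro T
      rw [sfp_tpl hS T]
      exact (prod_pf fun p hp => hS p (mem_filter.1 hp).1).1
    have e4 : ∀ a : 𝒯, sys γ (DT hr hLM M hn 𝒯 h𝒯).E f.primeFactors a =
        od (fun q : QB b n => q.1) f.primeFactors γ a.1 := fun a => sys_od fun q => mem_EB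
    have e5 : (∀ a : 𝒯, G (sys γ (DT hr hLM M hn 𝒯 h𝒯).E f.primeFactors a)) ↔
        ∀ a : 𝒯, G (od (fun q : QB b n => q.1) f.primeFactors γ a.1) :=
      forall_congr' fun a => by rw [e4 a]
    rw [e5]
    constructor
    · intro h a
      have := h a.1 a.2
      rwa [e3] at this
    · intro h T hT
      show G (sfp (∏ i ∈ T, tpl (fun q : QB b n => q.1) f.primeFactors γ i)).primeFactors
      rw [e3]
      exact h ⟨T, hT⟩

end Pool.Agent.N869.GK.A
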